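import Mathlib

set_option autoImplicit false

namespace Pool.Agent.H.MP_e968d9_an

open Complex MeasureTheory Set Filter Topology Real

/-- line integral vanishes under quadratic decay -/
lemma cont0 {G : ℂ → ℂ} {x : ℝ} (hd : DifferentiableOn ℂ G {z : ℂ | x ≤ z.re})
    (hi : Integrable fun y : ℝ => G (x + y * I)) {C R : ℝ}
    (hb : ∀ z : ℂ, x ≤ z.re → R ≤ ‖z - x‖ → ‖G z‖ ≤ C / ‖z - x‖ ^ 2) :
    ∫ y : ℝ, G (x + y * I) = 0 := by
  have l1 := intervalIntegral_tendsto_integral hi (tendsto_neg_atTop_atBot) (tendsto_id (x := (atTop : Filter ℝ)))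
  refine tendsto_nhds_unique l1 (squeeze_zero_norm' (a := fun T : ℝ => 4 * |C| / T) ?_
    (tendsto_const_nhds.div_atTop tendsto_id))
  filter_upwards [eventually_ge_atTop R, eventually_gt_atTop 0] with T hR hT
  have key : ∀ z : ℂ, x ≤ z.re → T ≤ ‖z - x‖ → ‖G z‖ ≤ |C| / T ^ 2 := fun z h1 h2 =>
    (hb z h1 (hR.trans h2)).trans <| by
      refine (div_le_div_of_nonneg_right (le_abs_self C) (by positivity)).trans ?_
      gcongr
  have := integral_boundary_rect_eq_zero_of_differentiableOn G ⟨x, -T⟩ ⟨x + T, T⟩ (hd.mono fun w hw => by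
    have := hw.1
    rw [uIcc_of_le (by simp only; linarith)] at this
    exact this.1)
  simp only at this
  have b1 : ∀ s : ℝ, |s| = T → ‖∫ t : ℝ in x..(x + T), G (t + s * I)‖ ≤ |C| / T ^ 2 * |x + T - x| := fun s hs =>
    intervalIntegral.norm_integral_le_of_norm_le_const fun t ht => by
      rw [uIoc_of_le (by linarith)] at ht
      refine key _ (by simpa using ht.1.le) ?_
      have := abs_im_le_norm ((t : ℂ) + s * I - x)
      simpa [hs] using this
  have b2 : ‖∫ t : ℝ in (-T)..T, G ((x + T : ℝ) + t * I)‖ ≤ |C| / T ^ 2 * |T - -T| :=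
    intervalIntegral.norm_integral_le_of_norm_le_const fun t ht => by
      refine key _ (by simp; linarith) ?_
      have := re_le_norm (((x + T : ℝ) : ℂ) + t * I - x)
      simpa using this
  have b3 := b1 T (abs_of_pos hT)
  have b4 := b1 (-T) (by rw [abs_neg, abs_of_pos hT])
  have e : I • ∫ t : ℝ in (-T)..T, G (x + t * I) = (∫ t : ℝ in x..(x + T), G (t + (-T : ℝ) * I))
      - (∫ t : ℝ in x..(x + T), G (t + T * I)) + I • ∫ t : ℝ in (-T)..T, G ((x + T : ℝ) + t * I) := by
    linear_combination (exp := 1) -this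
  have n1 : ‖∫ t : ℝ in (-T)..T, G (x + t * I)‖ = ‖I • ∫ t : ℝ in (-T)..T, G (x + t * I)‖ := by
    rw [norm_smul, norm_I, one_mul]
  simp only [id]
  rw [n1, e]
  refine (norm_add_le _ _).trans ?_
  rw [norm_smul, norm_I, one_mul]
  have := norm_sub_le (∫ t : ℝ in x..(x + T), G (t + (-T : ℝ) * I)) (∫ t : ℝ in x..(x + T), G (t + T * I))
  rw [show x + T - x = T by ring, abs_of_pos hT] at b3 b4
  rw [show T - -T = 2 * T by ring, abs_of_pos (show 0 < 2 * T by linarith)] at b2
  have e2 : 4 * |C| / T = 4 * (|C| / T ^ 2 * T) := by field_simp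
  rw [e2]
  nlinarith

lemma lc {F : ℂ → ℂ} (hd : DifferentiableOn ℂ F {z : ℂ | 0 < z.re}) {x : ℝ} (hx : 0 < x) :
    Continuous fun y : ℝ => F (x + y * I) :=
  hd.continuousOn.comp_continuous (by fun_prop) fun y => by simpa using hx

/-- line integral of a bounded analytic function integrable on the line -/
lemma cont1 {F : ℂ → ℂ} (hd : DifferentiableOn ℂ F {z : ℂ | 0 < z.re}) {C : ℝ}
    (hb : ∀ z : ℂ, 0 < z.re → ‖F z‖ ≤ C) {x : ℝ} (hx : 0 < x)
    (hi : Integrable fun y : ℝ => F (x + y * I)) : ∫ y : ℝ, F (x + y * I) = 0 := by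
  have lb : ∀ (e : ℝ) (ζ : ℂ), 0 < e → 0 ≤ ζ.re → 1 ≤ ‖1 + e * ζ‖ ∧ e * ‖ζ‖ ≤ ‖1 + e * ζ‖ := by
    intro e ζ he hz
    have h1 : ‖1 + e * ζ‖ ^ 2 = 1 + 2 * e * ζ.re + e ^ 2 * ‖ζ‖ ^ 2 := by
      rw [Complex.sq_norm, Complex.sq_norm, normSq_apply, normSq_apply]; simp; ring
    have h2 : 0 ≤ e * ζ.re := by positivity
    constructor
    · exact abs_le_of_sq_le_sq' (by nlinarith [sq_nonneg (e * ‖ζ‖)]) (norm_nonneg _) |>.2
    · exact abs_le_of_sq_le_sq' (by nlinarith) (norm_nonneg _) |>.2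
  have h0 : ∀ e : ℝ, 0 < e → ∫ y : ℝ, F (x + y * I) / (1 + e * (y * I)) ^ 2 = 0 := by
    intro e he
    have ne : ∀ z : ℂ, x ≤ z.re → (1 + e * (z - x)) ≠ 0 := fun z hz h => by
      have := (lb e (z - x) he (by simpa using hz)).1
      rw [h, norm_zero] at this; linarith
    have := cont0 (G := fun z => F z / (1 + e * (z - x)) ^ 2) (x := x) (C := C / e ^ 2) (R := 1) ?_ ?_ ?_
    · simpa using this
    · exact (hd.mono fun z hz => hx.trans_le hz).div (by fun_prop) fun z hz => pow_ne_zero _ (ne z hz)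
    · refine hi.mono ?_ (Eventually.of_forall fun y => ?_)
      · exact ((lc hd hx).div (by fun_prop) fun y => pow_ne_zero _ (ne _ (by simp))).aestronglyMeasurable
      · rw [norm_div, norm_pow]
        exact div_le_self (norm_nonneg _) (one_le_pow₀ (lb e _ he (by simp)).1)
    · intro z hz h1
      have := (lb e (z - x) he (by simpa using hz)).2
      rw [norm_div, norm_pow, div_div, ← mul_pow]
      have c0 : 0 ≤ C := (norm_nonneg _).trans (hb 1 (by simp))
      gcongr
      exact hb z (hx.trans_le hz)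
  have t := tendsto_integral_of_dominated_convergence (μ := volume)
    (F := fun (n : ℕ) (y : ℝ) => F (x + y * I) / (1 + (1 / ((n : ℝ) + 1) : ℝ) * (y * I)) ^ 2)
    (f := fun y : ℝ => F (x + y * I)) (fun y : ℝ => ‖F (x + y * I)‖) ?_ hi.norm ?_ ?_
  · have : (fun n : ℕ => ∫ y : ℝ, F (x + y * I) / (1 + (1 / ((n : ℝ) + 1) : ℝ) * (y * I)) ^ 2) = fun _ => 0 :=
      funext fun n => h0 _ (by positivity)
    rw [this] at t
    exact tendsto_nhds_unique t tendsto_const_nhds
  · intro n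
    refine ((lc hd hx).div (by fun_prop) fun y h => ?_).aestronglyMeasurable
    have := (lb (1 / ((n : ℝ) + 1)) (y * I) (by positivity) (by simp)).1
    rw [pow_eq_zero_iff (by norm_num)] at h
    rw [h, norm_zero] at this; linarith
  · intro n
    refine Eventually.of_forall fun y => ?_
    rw [norm_div, norm_pow]
    exact div_le_self (norm_nonneg _) (one_le_pow₀ (lb _ _ (by positivity) (by simp)).1)
  · refine Eventually.of_forall fun y => ?_
    have h1 : Tendsto (fun n : ℕ => (((1 / ((n : ℝ) + 1) : ℝ)) : ℂ)) atTop (𝓝 ((0 : ℝ) : ℂ)) :=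
      (continuous_ofReal.tendsto 0).comp tendsto_one_div_add_atTop_nhds_zero_nat
    have h2 := (tendsto_const_nhds (x := F (x + y * I))).div (((h1.mul_const (y * I)).const_add 1).pow 2) (by simp)
    simp only [ofReal_zero, zero_mul, add_zero, one_pow, div_one] at h2
    exact h2

/-- Poisson weight -/
noncomputable def q (s τ y : ℝ) : ℝ := 1 / (s ^ 2 + (y - τ) ^ 2)

lemma q_pos {s : ℝ} (hs : 0 < s) (τ y : ℝ) : 0 < q s τ y := by unfold q; positivity

lemma q_le {s : ℝ} (hs : 0 < s) (τ y : ℝ) : q s τ y ≤ 1 / s ^ 2 := by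
  unfold q; gcongr; nlinarith [sq_nonneg (y - τ)]

lemma q_eq {s : ℝ} (hs : 0 < s) (τ y : ℝ) : q s τ y = (1 / s ^ 2) * (1 + ((y - τ) / s) ^ 2)⁻¹ := by
  unfold q; field_simp

lemma q_int {s : ℝ} (hs : 0 < s) (τ : ℝ) : Integrable (q s τ) := by
  have := ((integrable_inv_one_add_sq.comp_div hs.ne').comp_sub_right τ).const_mul (1 / s ^ 2)
  exact this.congr (Eventually.of_forall fun y => (q_eq hs τ y).symm)

lemma q_val {s : ℝ} (hs : 0 < s) (τ : ℝ) : ∫ y, q s τ y = π / s := by
  simp_rw [q_eq hs]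
  rw [integral_const_mul, integral_sub_right_eq_self (fun y : ℝ => (1 + (y / s) ^ 2)⁻¹) τ,
    Measure.integral_comp_div (fun y : ℝ => (1 + y ^ 2)⁻¹) s, integral_univ_inv_one_add_sq, abs_of_pos hs]
  simp only [smul_eq_mul]; field_simp

lemma q_cont {s : ℝ} (hs : 0 < s) : Continuous fun p : ℝ × ℝ => q s p.1 p.2 := by
  unfold q
  exact continuous_const.div (by fun_prop) fun p => by positivity

/-- Poisson formula -/
lemma poisson {F : ℂ → ℂ} (hd : DifferentiableOn ℂ F {z : ℂ | 0 < z.re}) {C : ℝ}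
    (hb : ∀ z : ℂ, 0 < z.re → ‖F z‖ ≤ C) {x s : ℝ} (hx : 0 < x) (hs : 0 < s) (τ : ℝ) :
    Integrable (fun y : ℝ => (q s τ y : ℂ) * F (x + y * I)) ∧
    ∫ y : ℝ, (q s τ y : ℂ) * F (x + y * I) = (π / s : ℝ) * F ((x + s : ℝ) + τ * I) := by
  set a : ℂ := (x + s : ℝ) + τ * I with ha
  have ar : 0 < a.re := by simp [ha]; linarith
  have qi : Integrable fun y : ℝ => (q s τ y : ℂ) := (q_int hs τ).ofReal
  have i1 : Integrable (fun y : ℝ => (q s τ y : ℂ) * F (x + y * I)) :=
    qi.mul_bdd (c := C) (lc hd hx).aestronglyMeasurable (Eventually.of_forall fun y => hb _ (by simpa using hx))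
  refine ⟨i1, ?_⟩
  have op : IsOpen {z : ℂ | 0 < z.re} := isOpen_lt continuous_const continuous_re
  have dd : DifferentiableOn ℂ (dslope F a) {z : ℂ | 0 < z.re} :=
    (differentiableOn_dslope (op.mem_nhds ar)).2 hd
  have ne : ∀ z : ℂ, x ≤ z.re → z - x + (s - τ * I) ≠ 0 := fun z hz h => by
    have := congrArg re h
    simp at this; linarith
  have ln : ∀ y : ℝ, dslope F a (x + y * I) / (x + y * I - x + (s - τ * I)) =
      -((q s τ y : ℂ) * F (x + y * I) - (q s τ y : ℂ) * F a) := by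
    intro y
    have n1 : (x : ℂ) + y * I ≠ a := fun h => by
      have := congrArg re h
      simp [ha] at this; linarith
    rw [dslope_of_ne _ n1, slope_def_field]
    have n2 := ne (x + y * I) (by simp)
    have n3 := sub_ne_zero.2 n1
    have n4 : ((s : ℂ) ^ 2 + ((y : ℂ) - τ) ^ 2) ≠ 0 := by
      have : (0 : ℝ) < s ^ 2 + (y - τ) ^ 2 := by positivity
      exact_mod_cast this.ne'
    have e : ((x : ℂ) + y * I - a) * (x + y * I - x + (s - τ * I)) = -((s : ℂ) ^ 2 + ((y : ℂ) - τ) ^ 2) := by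
      rw [ha]; push_cast; linear_combination (y - τ : ℂ) ^ 2 * I_sq
    rw [div_div, e]
    unfold q; push_cast; field_simp
  have := cont0 (G := fun z => dslope F a z / (z - x + (s - τ * I))) (x := x) (C := 8 * C)
    (R := 2 * ‖(s : ℂ) + τ * I‖ + 1) ?_ ?_ ?_
  · simp only [ln] at this
    rw [integral_neg, integral_sub i1 (qi.mul_const _), integral_mul_const, integral_complex_ofReal, q_val hs, neg_eq_zero,
      sub_eq_zero] at this
    exact this
  · exact (dd.mono fun z hz => hx.trans_le hz).div (by fun_prop) ne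
  · simp only [ln]
    exact (i1.sub (qi.mul_const _)).neg
  · intro z hz h1
    have m1 : ‖z - x‖ / 2 ≤ ‖z - a‖ := by
      have : z - x = (z - a) + (s + τ * I) := by rw [ha]; push_cast; ring
      have h2 := norm_add_le (z - a) (s + τ * I)
      rw [← this] at h2; linarith
    have m2 : ‖z - x‖ / 2 ≤ ‖z - x + (s - τ * I)‖ := by
      have h2 := norm_sub_le (z - x + (s - τ * I)) (s - τ * I)
      have h3 : ‖(s : ℂ) - τ * I‖ = ‖(s : ℂ) + τ * I‖ := by
        rw [← Complex.norm_conj]; simp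
      rw [add_sub_cancel_right, h3] at h2; linarith
    have p : 0 < ‖z - x‖ := by linarith [norm_nonneg ((s : ℂ) + τ * I)]
    have n1 : z ≠ a := fun h => by
      rw [h, sub_self, norm_zero] at m1; rw [h] at p; linarith
    rw [dslope_of_ne _ n1, slope_def_field, norm_div, norm_div, div_div]
    have b1 : ‖F z - F a‖ ≤ 2 * C := by
      linarith [norm_sub_le (F z) (F a), hb z (hx.trans_le hz), hb a ar]
    have e : 8 * C / ‖z - x‖ ^ 2 = 2 * C / (‖z - x‖ / 2 * (‖z - x‖ / 2)) := by field_simp; ring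
    rw [e]
    have c0 : 0 ≤ C := (norm_nonneg _).trans (hb 1 (by simp))
    gcongr

end Pool.Agent.H.MP_e968d9_an
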