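import Pool.Agent.H.MP_e968d9_an.A

set_option autoImplicit false

namespace Pool.Agent.H.MP_e968d9_an

open Complex MeasureTheory Set Filter Topology Real ComplexConjugate

/-- Jensen by the tangent line -/
lemma jen {F : ℂ → ℂ} (hd : DifferentiableOn ℂ F {z : ℂ | 0 < z.re}) {C : ℝ}
    (hb : ∀ z : ℂ, 0 < z.re → ‖F z‖ ≤ C) {x s : ℝ} (hx : 0 < x) (hs : 0 < s) (τ : ℝ) (u : ℂ) (κ : ℝ)
    {V : ℝ → ℝ} (hV : Continuous V) (hB : ∀ y, ‖V y‖ ≤ C ^ 2)
    (h : ∀ y : ℝ, 2 * (u * F (x + y * I)).re - κ ≤ V y) :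
    ENNReal.ofReal ((2 * (u * F ((x + s : ℝ) + τ * I)).re - κ) * (π / s)) ≤
      ∫⁻ y, ENNReal.ofReal (q s τ y * V y) := by
  obtain ⟨i1, e1⟩ := poisson hd hb hx hs τ
  have i2 : Integrable fun y => q s τ y * V y :=
    (q_int hs τ).mul_bdd (c := C ^ 2) hV.aestronglyMeasurable (Eventually.of_forall hB)
  have i3 : Integrable fun y : ℝ => (u * ((q s τ y : ℂ) * F (x + y * I))).re := (i1.const_mul u).re
  have e3 : ∫ y : ℝ, (u * ((q s τ y : ℂ) * F (x + y * I))).re = (u * F ((x + s : ℝ) + τ * I)).re * (π / s) := by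
    have := integral_re (i1.const_mul u)
    simp only [RCLike.re_to_complex] at this
    rw [this, integral_const_mul, e1, mul_left_comm, re_ofReal_mul, mul_comm]
  have l : (2 * (u * F ((x + s : ℝ) + τ * I)).re - κ) * (π / s) ≤ ∫ y, q s τ y * V y := by
    have := integral_mono ((i3.const_mul 2).sub ((q_int hs τ).const_mul κ)) i2 fun y => by
      have h1 := h y
      have h2 := q_pos hs τ y
      simp only [Pi.sub_apply]
      rw [mul_left_comm u, re_ofReal_mul]
      nlinarith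
    simp only [Pi.sub_apply] at this
    rw [integral_sub (i3.const_mul 2) ((q_int hs τ).const_mul κ), integral_const_mul, integral_const_mul, e3,
      q_val hs] at this
    linarith
  refine (ENNReal.ofReal_le_ofReal l).trans ?_
  have i4 : Integrable fun y => max (q s τ y * V y) 0 := i2.pos_part
  refine (ENNReal.ofReal_le_ofReal (integral_mono i2 i4 fun y => le_max_left _ _)).trans ?_
  rw [ofReal_integral_eq_lintegral_ofReal i4 (Eventually.of_forall fun y => le_max_right _ _)]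
  refine lintegral_mono fun y => ?_
  simp [ENNReal.ofReal_max]

noncomputable def nn (F : ℂ → ℂ) (x : ℝ) : ENNReal := ∫⁻ y : ℝ, ENNReal.ofReal (‖F (x + y * I)‖ ^ 2)

lemma nn_eq (F : ℂ → ℂ) (x : ℝ) : ∫⁻ y : ℝ, (‖F (x + y * I)‖₊ : ENNReal) ^ 2 = nn F x := by
  refine lintegral_congr fun y => ?_
  rw [ENNReal.ofReal_pow (norm_nonneg _), ofReal_norm_eq_enorm]; rfl

/-- monotonicity of the line norms -/
lemma mono {F : ℂ → ℂ} (hd : DifferentiableOn ℂ F {z : ℂ | 0 < z.re}) {C : ℝ}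
    (hb : ∀ z : ℂ, 0 < z.re → ‖F z‖ ≤ C) {x x' : ℝ} (hx : 0 < x) (hs : x ≤ x') : nn F x' ≤ nn F x := by
  rcases hs.eq_or_lt with rfl | hs
  · exact le_rfl
  obtain ⟨s, rfl⟩ : ∃ s, x' = x + s := ⟨x' - x, by ring⟩
  have s0 : 0 < s := by linarith
  have cV : Continuous fun y : ℝ => ‖F (x + y * I)‖ ^ 2 := (lc hd hx).norm.pow 2
  have h1 : ∀ τ : ℝ, ENNReal.ofReal (π / s) * ENNReal.ofReal (‖F ((x + s : ℝ) + τ * I)‖ ^ 2) ≤
      ∫⁻ y, ENNReal.ofReal (q s τ y * ‖F (x + y * I)‖ ^ 2) := by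
    intro τ
    have := jen hd hb hx s0 τ (conj (F ((x + s : ℝ) + τ * I))) (‖F ((x + s : ℝ) + τ * I)‖ ^ 2) cV
      (fun y => by
        rw [norm_pow, norm_norm]
        exact pow_le_pow_left₀ (norm_nonneg _) (hb _ (by simpa using hx)) 2) (fun y => by
        generalize F ((x + s : ℝ) + τ * I) = m
        generalize F (x + y * I) = z
        rw [Complex.sq_norm, Complex.sq_norm, normSq_apply, normSq_apply]
        simp only [mul_re, conj_re, conj_im]
        nlinarith [sq_nonneg (m.re - z.re), sq_nonneg (m.im - z.im)])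
    rw [← ENNReal.ofReal_mul (by positivity)]
    refine le_trans (le_of_eq ?_) this
    congr 1
    rw [Complex.conj_mul', ← ofReal_pow, ofReal_re]; ring
  have p0 : ENNReal.ofReal (π / s) ≠ 0 := by simp; positivity
  have h2 : ENNReal.ofReal (π / s) * nn F (x + s) ≤ ENNReal.ofReal (π / s) * nn F x := by
    unfold nn
    rw [← lintegral_const_mul' _ _ ENNReal.ofReal_ne_top, ← lintegral_const_mul' _ _ ENNReal.ofReal_ne_top]
    refine (lintegral_mono h1).trans (le_of_eq ?_)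
    rw [lintegral_lintegral_swap]
    · refine lintegral_congr fun y => ?_
      have e : ∀ τ, q s τ y = q s y τ := fun τ => by unfold q; ring
      simp_rw [e, ENNReal.ofReal_mul (q_pos s0 _ _).le]
      rw [lintegral_mul_const' _ _ ENNReal.ofReal_ne_top, ← ofReal_integral_eq_lintegral_ofReal (q_int s0 y)
        (Eventually.of_forall fun t => (q_pos s0 _ _).le), q_val s0]
    · exact (ENNReal.continuous_ofReal.comp ((q_cont s0).mul (cV.comp continuous_snd))).aemeasurable
  exact (ENNReal.mul_le_mul_iff_right p0 ENNReal.ofReal_ne_top).1 h2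

/-- pointwise bound for the real part -/
lemma reb {F : ℂ → ℂ} (hd : DifferentiableOn ℂ F {z : ℂ | 0 < z.re}) {C : ℝ}
    (hb : ∀ z : ℂ, 0 < z.re → ‖F z‖ ≤ C) {x : ℝ} (hx : 0 < x) {a : ℂ} (ha : 2 * x ≤ a.re) :
    ENNReal.ofReal ((F a).re ^ 2 * (π * a.re / 2)) ≤ ∫⁻ y : ℝ, ENNReal.ofReal ((F (x + y * I)).re ^ 2) := by
  set s := a.re - x with hs
  have s0 : 0 < s := by linarith
  have ea : ((x + s : ℝ) : ℂ) + a.im * I = a := by
    rw [hs, add_sub_cancel, re_add_im]
  have := jen hd hb hx s0 a.im ((F a).re) ((F a).re ^ 2) (V := fun y => (F (x + y * I)).re ^ 2)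
    ((continuous_re.comp (lc hd hx)).pow 2) (fun y => by
      rw [norm_pow]
      exact pow_le_pow_left₀ (norm_nonneg _) ((abs_re_le_norm _).trans (hb _ (by simpa using hx))) 2) (fun y => by
      rw [re_ofReal_mul]; nlinarith [sq_nonneg ((F a).re - (F (x + y * I)).re)])
  rw [ea, re_ofReal_mul] at this
  have h2 : ENNReal.ofReal (s ^ 2) * ENNReal.ofReal ((2 * ((F a).re * (F a).re) - (F a).re ^ 2) * (π / s)) ≤
      ∫⁻ y : ℝ, ENNReal.ofReal ((F (x + y * I)).re ^ 2) := by
    refine (mul_le_mul_right this _).trans ?_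
    rw [← lintegral_const_mul' _ _ ENNReal.ofReal_ne_top]
    refine lintegral_mono fun y => ?_
    rw [← ENNReal.ofReal_mul (by positivity)]
    refine ENNReal.ofReal_le_ofReal ?_
    have h3 := q_le s0 a.im y
    rw [le_div_iff₀ (by positivity)] at h3
    nlinarith [sq_nonneg (F (x + y * I)).re]
  refine le_trans ?_ h2
  rw [← ENNReal.ofReal_mul (by positivity)]
  refine ENNReal.ofReal_le_ofReal ?_
  have e : s ^ 2 * ((2 * ((F a).re * (F a).re) - (F a).re ^ 2) * (π / s)) = (F a).re ^ 2 * (π * s) := by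
    field_simp; ring
  rw [e, mul_div_assoc]
  gcongr
  linarith

lemma nn_int {F : ℂ → ℂ} (hd : DifferentiableOn ℂ F {z : ℂ | 0 < z.re}) {x : ℝ} (hx : 0 < x) :
    nn F x ≠ ⊤ ↔ Integrable fun y : ℝ => ‖F (x + y * I)‖ ^ 2 :=
  lintegral_ofReal_ne_top_iff_integrable ((lc hd hx).norm.pow 2).aestronglyMeasurable
    (Eventually.of_forall fun _ => sq_nonneg _)

lemma pw (g h δ ρ : ℂ) : ‖δ * g + conj δ * conj h - ρ * g * conj h‖ ^ 2 + ‖ρ * g * h‖ ^ 2 =
    ‖conj δ * g - conj ρ * g * h‖ ^ 2 + ‖conj δ * h - ρ * g * h‖ ^ 2 + 2 * (δ ^ 2 * (g * h)).re := by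
  simp only [Complex.sq_norm, normSq_apply, pow_two δ, mul_re, mul_im, add_re, add_im, sub_re, sub_im, conj_re, conj_im]
  ring

lemma lsum {a b c d r : ℝ → ℝ} (cb : Continuous b) (a0 : ∀ y, 0 ≤ a y) (b0 : ∀ y, 0 ≤ b y) (c0 : ∀ y, 0 ≤ c y)
    (d0 : ∀ y, 0 ≤ d y) (ic : Integrable c) (id : Integrable d) (ir : Integrable r) (z : ∫ y, r y = 0)
    (e : ∀ y, a y + b y = c y + d y + r y) :
    (∫⁻ y, ENNReal.ofReal (a y)) + ∫⁻ y, ENNReal.ofReal (b y) =
      (∫⁻ y, ENNReal.ofReal (c y)) + ∫⁻ y, ENNReal.ofReal (d y) := by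
  rw [← lintegral_add_right _ (by fun_prop), ← ofReal_integral_eq_lintegral_ofReal ic (Eventually.of_forall c0),
    ← ofReal_integral_eq_lintegral_ofReal id (Eventually.of_forall d0),
    ← ENNReal.ofReal_add (integral_nonneg c0) (integral_nonneg d0)]
  simp_rw [← ENNReal.ofReal_add (a0 _) (b0 _)]
  have i4 : Integrable fun y => a y + b y := ((ic.add id).add ir).congr (Eventually.of_forall fun y => (e y).symm)
  rw [← ofReal_integral_eq_lintegral_ofReal i4 (Eventually.of_forall fun y => add_nonneg (a0 y) (b0 y))]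
  simp_rw [e]
  have i5 : Integrable fun y => c y + d y := ic.add id
  rw [integral_add i5 ir, z, add_zero, integral_add ic id]

/-- the basic identity -/
lemma ident {g h : ℂ → ℂ} (dg : DifferentiableOn ℂ g {z : ℂ | 0 < z.re}) (dh : DifferentiableOn ℂ h {z : ℂ | 0 < z.re})
    {D C : ℝ} (bg : ∀ z : ℂ, 0 < z.re → ‖g z‖ ≤ D) (bh : ∀ z : ℂ, 0 < z.re → ‖h z‖ ≤ C) {x : ℝ} (hx : 0 < x)
    (ng : nn g x ≠ ⊤) (nh : nn h x ≠ ⊤) (δ ρ t : ℂ) :
    nn (fun z => t * (δ * g z + conj δ * conj (h z) - ρ * g z * conj (h z))) x + nn (fun z => t * (ρ * g z * h z)) x =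
      nn (fun z => t * (conj δ * g z - conj ρ * g z * h z)) x + nn (fun z => t * (conj δ * h z - ρ * g z * h z)) x := by
  have cg := lc dg hx
  have ch := lc dh hx
  have ig := (nn_int dg hx).1 ng
  have ih := (nn_int dh hx).1 nh
  have c0 : 0 ≤ D := (norm_nonneg _).trans (bg 1 (by simp))
  have mg : MemLp (fun y : ℝ => g (x + y * I)) 2 := (memLp_two_iff_integrable_sq_norm cg.aestronglyMeasurable).2 ig
  have mh : MemLp (fun y : ℝ => h (x + y * I)) 2 := (memLp_two_iff_integrable_sq_norm ch.aestronglyMeasurable).2 ih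
  have igh : Integrable fun y : ℝ => g (x + y * I) * h (x + y * I) := mg.integrable_mul mh
  have z := cont1 (F := fun z => g z * h z) (dg.mul dh) (C := D * C) (fun z hz => by
    rw [norm_mul]; exact mul_le_mul (bg z hz) (bh z hz) (norm_nonneg _) c0) hx igh
  have mgh : MemLp (fun y : ℝ => g (x + y * I) * h (x + y * I)) 2 :=
    mg.of_le_mul (c := C) (cg.mul ch).aestronglyMeasurable (Eventually.of_forall fun y => by
      rw [norm_mul, mul_comm]; gcongr; exact bh _ (by simpa using hx))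
  have m1 : MemLp (fun y : ℝ => t * (conj δ * g (x + y * I) - conj ρ * g (x + y * I) * h (x + y * I))) 2 := by
    simp_rw [mul_assoc]
    exact ((mg.const_mul _).sub (mgh.const_mul _)).const_mul t
  have m2 : MemLp (fun y : ℝ => t * (conj δ * h (x + y * I) - ρ * g (x + y * I) * h (x + y * I))) 2 := by
    simp_rw [mul_assoc]
    exact ((mh.const_mul _).sub (mgh.const_mul _)).const_mul t
  have i1 := (memLp_two_iff_integrable_sq_norm m1.1).1 m1
  have i2 := (memLp_two_iff_integrable_sq_norm m2.1).1 m2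
  have i3 : Integrable fun y : ℝ => (δ ^ 2 * (g (x + y * I) * h (x + y * I))).re := (igh.const_mul _).re
  have e3 : ∫ y : ℝ, (δ ^ 2 * (g (x + y * I) * h (x + y * I))).re = 0 := by
    have := integral_re (igh.const_mul (δ ^ 2))
    simp only [RCLike.re_to_complex] at this
    rw [this, integral_const_mul, z]; simp
  refine lsum (((cg.const_mul ρ).mul ch).const_mul t |>.norm.pow 2) (fun _ => sq_nonneg _) (fun _ => sq_nonneg _)
    (fun _ => sq_nonneg _) (fun _ => sq_nonneg _) i1 i2 (i3.const_mul (2 * ‖t‖ ^ 2))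
    (by rw [integral_const_mul, e3, mul_zero]) fun y => ?_
  have := pw (g (x + y * I)) (h (x + y * I)) δ ρ
  simp only [norm_mul t, mul_pow]
  linear_combination ‖t‖ ^ 2 * this

end Pool.Agent.H.MP_e968d9_an
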