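import Pool.Agent.H.MP_e968d9_an.B

set_option autoImplicit false

namespace Pool.Agent.H.MP_e968d9_an

open Complex MeasureTheory Set Filter Topology Real ComplexConjugate

def Bd (F : ℂ → ℂ) : Prop := DifferentiableOn ℂ F {z : ℂ | 0 < z.re} ∧ ∃ C : ℝ, ∀ z : ℂ, 0 < z.re → ‖F z‖ ≤ C

lemma Bd.const (c : ℂ) : Bd fun _ => c := ⟨by fun_prop, ‖c‖, fun _ _ => le_rfl⟩

lemma Bd.mul {F G : ℂ → ℂ} (hF : Bd F) (hG : Bd G) : Bd fun z => F z * G z := by
  obtain ⟨d1, C, h1⟩ := hF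
  obtain ⟨d2, D, h2⟩ := hG
  exact ⟨d1.mul d2, C * D, fun z hz => by
    rw [norm_mul]; exact mul_le_mul (h1 z hz) (h2 z hz) (norm_nonneg _) ((norm_nonneg _).trans (h1 z hz))⟩

lemma Bd.sub {F G : ℂ → ℂ} (hF : Bd F) (hG : Bd G) : Bd fun z => F z - G z := by
  obtain ⟨d1, C, h1⟩ := hF
  obtain ⟨d2, D, h2⟩ := hG
  exact ⟨d1.sub d2, C + D, fun z hz => (norm_sub_le _ _).trans (add_le_add (h1 z hz) (h2 z hz))⟩

lemma Bd.mono {F : ℂ → ℂ} (hF : Bd F) {x x' : ℝ} (hx : 0 < x) (hs : x ≤ x') : nn F x' ≤ nn F x := by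
  obtain ⟨d1, C, h1⟩ := hF
  exact MP_e968d9_an.mono d1 h1 hx hs

lemma nz {a b : ℂ} (ha : 0 < a.re) (hb : 0 < b.re) : a + conj b ≠ 0 := fun h => by
  have := congrArg re h
  simp at this; linarith

lemma Bd.ker {φ : ℂ → ℂ} (hd : DifferentiableOn ℂ φ {z : ℂ | 0 < z.re}) (hm : ∀ z : ℂ, 0 < z.re → 0 < (φ z).re)
    {w : ℂ} (hw : 0 < w.re) : Bd fun z => (φ z + conj w)⁻¹ := by
  refine ⟨(hd.add_const _).inv fun z hz => nz (hm z hz) hw, (w.re)⁻¹, fun z hz => ?_⟩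
  rw [norm_inv]
  refine inv_anti₀ hw (le_trans ?_ (re_le_norm _))
  have := hm z hz
  simp; linarith

noncomputable def N (F : ℂ → ℂ) : ENNReal := ⨆ (x : ℝ) (_ : 0 < x), nn F x

lemma le_N (F : ℂ → ℂ) {x : ℝ} (hx : 0 < x) : nn F x ≤ N F := le_iSup₂_of_le (f := fun (x : ℝ) (_ : 0 < x) => nn F x) x hx le_rfl

lemma N_congr {F G : ℂ → ℂ} (h : ∀ z : ℂ, 0 < z.re → F z = G z) : N F = N G :=
  iSup_congr fun x => iSup_congr fun hx => lintegral_congr fun y => by rw [h _ (by simpa using hx)]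

lemma nn_le {F G : ℂ → ℂ} {x K : ℝ} (h : ∀ y : ℝ, ‖F (x + y * I)‖ ≤ K * ‖G (x + y * I)‖) :
    nn F x ≤ ENNReal.ofReal (K ^ 2) * nn G x := by
  unfold nn
  rw [← lintegral_const_mul' _ _ ENNReal.ofReal_ne_top]
  refine lintegral_mono fun y => ?_
  rw [← ENNReal.ofReal_mul (sq_nonneg _), ← mul_pow]
  exact ENNReal.ofReal_le_ofReal (pow_le_pow_left₀ (norm_nonneg _) (h y) 2)

lemma nn_ker {P : ℂ} (hP : 0 < P.re) {x : ℝ} (hx : 0 < x) :
    nn (fun z => (z + conj P)⁻¹) x ≤ ENNReal.ofReal (π / P.re) := by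
  rw [← q_val hP P.im, ofReal_integral_eq_lintegral_ofReal (q_int hP _) (Eventually.of_forall fun t => (q_pos hP _ _).le)]
  refine lintegral_mono fun y => ENNReal.ofReal_le_ofReal ?_
  rw [norm_inv, inv_pow, Complex.sq_norm, normSq_apply, q, one_div]
  refine inv_anti₀ (by positivity) ?_
  simp
  nlinarith [mul_pos hP hx]

/-- the model side -/
lemma model {P Q : ℂ} (hP : 0 < P.re) (hQ : 0 < Q.re) (t : ℂ) :
    N (fun z => t * ((z + conj P)⁻¹ - conj (Q + conj P) * (z + conj P)⁻¹ * (z + conj Q)⁻¹)) +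
      N (fun z => t * ((z + conj Q)⁻¹ - (Q + conj P) * (z + conj P)⁻¹ * (z + conj Q)⁻¹)) ≤
      N (fun z => t * ((Q + conj P) * (z + conj P)⁻¹ * (z + conj Q)⁻¹)) ∧
    N (fun z => t * ((Q + conj P) * (z + conj P)⁻¹ * (z + conj Q)⁻¹)) ≠ ⊤ := by
  have bP : Bd fun z => (z + conj P)⁻¹ := Bd.ker (φ := fun z => z) (by fun_prop) (fun _ h => h) hP
  have bQ : Bd fun z => (z + conj Q)⁻¹ := Bd.ker (φ := fun z => z) (by fun_prop) (fun _ h => h) hQ
  obtain ⟨C, hC⟩ := bP.2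
  obtain ⟨D, hD⟩ := bQ.2
  constructor
  · refine ENNReal.biSup_add_biSup_le' ⟨1, one_pos⟩ ⟨1, one_pos⟩ fun x1 h1 x2 h2 => ?_
    have lim : Tendsto (fun x : ℝ => ENNReal.ofReal ((‖t‖ * (2 * x) * D) ^ 2 * (π / P.re)) +
        N (fun z => t * ((Q + conj P) * (z + conj P)⁻¹ * (z + conj Q)⁻¹))) (𝓝[>] 0)
        (𝓝 (ENNReal.ofReal ((‖t‖ * (2 * 0) * D) ^ 2 * (π / P.re)) +
        N (fun z => t * ((Q + conj P) * (z + conj P)⁻¹ * (z + conj Q)⁻¹)))) :=
      (Continuous.tendsto ((ENNReal.continuous_ofReal.comp (by fun_prop)).add continuous_const) 0).mono_left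
        nhdsWithin_le_nhds
    simp only [mul_zero, zero_mul, ne_eq, OfNat.ofNat_ne_zero, not_false_eq_true, zero_pow, ENNReal.ofReal_zero,
      zero_add] at lim
    refine ge_of_tendsto lim ?_
    filter_upwards [Ioc_mem_nhdsGT h1, Ioc_mem_nhdsGT h2] with x x1' x2'
    have hx := x1'.1
    have id := ident bP.1 bQ.1 hC hD hx ((nn_ker hP hx).trans_lt ENNReal.ofReal_lt_top).ne
      ((nn_ker hQ hx).trans_lt ENNReal.ofReal_lt_top).ne 1 (Q + conj P) t
    simp only [map_one, one_mul] at id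
    have m1 := ((Bd.const t).mul (bP.sub (((Bd.const (conj (Q + conj P))).mul bP).mul bQ))).mono hx x1'.2
    have m2 := ((Bd.const t).mul (bQ.sub (((Bd.const (Q + conj P)).mul bP).mul bQ))).mono hx x2'.2
    refine (add_le_add m1 m2).trans (id.symm.le.trans (add_le_add ?_ (le_N _ hx)))
    rw [ENNReal.ofReal_mul (sq_nonneg _)]
    refine (nn_le (G := fun z => (z + conj P)⁻¹) (K := ‖t‖ * (2 * x) * D) fun y => ?_).trans
      (mul_le_mul_right (nn_ker hP hx) _)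
    have z0 : 0 < ((x : ℂ) + y * I).re := by simpa using hx
    have n1 := nz z0 hP
    have n2 := nz z0 hQ
    have n3 : conj ((x : ℂ) + y * I + conj Q) ≠ 0 := (map_ne_zero _).2 n2
    have e : ((x : ℂ) + y * I + conj P)⁻¹ + conj (((x : ℂ) + y * I + conj Q)⁻¹) -
        (Q + conj P) * ((x : ℂ) + y * I + conj P)⁻¹ * conj (((x : ℂ) + y * I + conj Q)⁻¹) =
        (2 * x : ℝ) * conj (((x : ℂ) + y * I + conj Q)⁻¹) * ((x : ℂ) + y * I + conj P)⁻¹ := by
      rw [map_inv₀]; field_simp; simp; ring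
    rw [e]
    simp only [norm_mul, Complex.norm_conj, Complex.norm_real, Real.norm_eq_abs, abs_of_pos hx, abs_two]
    have := hD _ z0
    rw [← mul_assoc, ← mul_assoc]
    gcongr
  · refine ne_top_of_le_ne_top (b := ENNReal.ofReal ((‖t‖ * ‖Q + conj P‖ * D) ^ 2) * ENNReal.ofReal (π / P.re))
      (ENNReal.mul_ne_top ENNReal.ofReal_ne_top ENNReal.ofReal_ne_top) (iSup₂_le fun x hx => ?_)
    refine (nn_le (G := fun z => (z + conj P)⁻¹) fun y => ?_).trans (mul_le_mul_right (nn_ker hP hx) _)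
    have := hD ((x : ℂ) + y * I) (by simpa using hx)
    simp only [norm_mul]
    calc _ = ‖t‖ * ‖Q + conj P‖ * ‖((x : ℂ) + y * I + conj Q)⁻¹‖ * ‖((x : ℂ) + y * I + conj P)⁻¹‖ := by ring
      _ ≤ _ := by gcongr

def Hyp (φ : ℂ → ℂ) : Prop := ∀ w v c e : ℂ, 0 < w.re → 0 < v.re →
  N (fun z => c * (φ z + conj w)⁻¹ + e * (φ z + conj v)⁻¹) = N (fun z => c * (z + conj (φ w))⁻¹ + e * (z + conj (φ v))⁻¹)

lemma Hyp.fin {φ : ℂ → ℂ} (H : Hyp φ) (hm : ∀ z : ℂ, 0 < z.re → 0 < (φ z).re) {w : ℂ} (hw : 0 < w.re) {x : ℝ}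
    (hx : 0 < x) : nn (fun z => (φ z + conj w)⁻¹) x ≠ ⊤ := by
  have := H w w 1 0 hw hw
  simp only [one_mul, zero_mul, add_zero] at this
  refine ne_top_of_le_ne_top (ENNReal.ofReal_ne_top (r := π / (φ w).re)) ((le_N _ hx).trans (this.le.trans ?_))
  exact iSup₂_le fun x hx => nn_ker (hm w hw) hx

lemma small {φ : ℂ → ℂ} (hd : DifferentiableOn ℂ φ {z : ℂ | 0 < z.re}) (hm : ∀ z : ℂ, 0 < z.re → 0 < (φ z).re)
    (H : Hyp φ) {w v δ : ℂ} (hw : 0 < w.re) (hv : 0 < v.re) (hn : v ≠ w) (hδ : φ v - φ w = δ * (v - w))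
    {ε : ENNReal} (he : ε ≠ 0) {x0 : ℝ} (h0 : 0 < x0) : ∃ x, 0 < x ∧ x ≤ x0 ∧
      nn (fun z => 1 * (δ * (φ z + conj w)⁻¹ + conj δ * conj ((φ z + conj v)⁻¹) -
        (φ v + conj (φ w)) * (φ z + conj w)⁻¹ * conj ((φ z + conj v)⁻¹))) x ≤ ε := by
  have bw := Bd.ker hd hm hw
  have bv := Bd.ker hd hm hv
  obtain ⟨C, hC⟩ := bw.2
  obtain ⟨D, hD⟩ := bv.2
  obtain ⟨m1, m2⟩ := model (hm w hw) (hm v hv) (conj δ)
  set ρ := φ v + conj (φ w) with hρ
  have d0 : conj v - conj w ≠ 0 := by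
    rw [← map_sub]; exact (map_ne_zero _).2 (sub_ne_zero.2 hn)
  have hc : conj (φ v) = conj (φ w) + conj δ * (conj v - conj w) := by
    rw [← map_sub, ← map_mul, ← hδ, ← map_add, add_sub_cancel]
  have tr : ∀ a b r : ℂ, N (fun z => 1 * (conj δ * (a * (φ z + conj w)⁻¹ + b * (φ z + conj v)⁻¹) + r * (φ z + conj w)⁻¹ *
      (φ z + conj v)⁻¹)) = N (fun z => conj δ * (a * (z + conj (φ w))⁻¹ + b * (z + conj (φ v))⁻¹ +
        r * (z + conj (φ w))⁻¹ * (z + conj (φ v))⁻¹)) := by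
    intro a b r
    refine (N_congr fun z hz => ?_).trans ((H w v (conj δ * a + r / (conj v - conj w))
      (conj δ * b - r / (conj v - conj w)) hw hv).trans (N_congr fun z hz => ?_))
    · have n1 := nz (hm z hz) hw
      have n2 := nz (hm z hz) hv
      field_simp; ring
    · have n1 := nz hz (hm w hw)
      have n2 := nz hz (hm v hv)
      field_simp; rw [hc]; ring
  have t1 := tr 1 0 (-conj ρ)
  have t2 := tr 0 1 (-ρ)
  have t3 := tr 0 0 ρ
  simp only [zero_mul, one_mul (_⁻¹ : ℂ), mul_zero, zero_add, add_zero, neg_mul, ← sub_eq_add_neg] at t1 t2 t3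
  rw [← t1, ← t2, ← t3] at m1
  rw [← t3] at m2
  obtain ⟨x1, h1, l1⟩ : ∃ x1, 0 < x1 ∧ N (fun z => 1 * (ρ * (φ z + conj w)⁻¹ * (φ z + conj v)⁻¹)) ≤
      nn (fun z => 1 * (ρ * (φ z + conj w)⁻¹ * (φ z + conj v)⁻¹)) x1 + ε := by
    by_contra! hh
    refine (ENNReal.lt_add_right m2 he).not_ge ?_
    conv_lhs => rw [N, ENNReal.biSup_add' ⟨1, one_pos⟩]
    exact iSup₂_le fun x hx => (hh x hx).le
  have hx : 0 < min x0 x1 := lt_min h0 h1
  refine ⟨min x0 x1, hx, min_le_left _ _, ?_⟩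
  have id := ident bw.1 bv.1 hC hD hx (H.fin hm hw hx) (H.fin hm hv hx) δ ρ 1
  have mo := ((Bd.const 1).mul (((Bd.const ρ).mul bw).mul bv)).mono hx (min_le_right x0 x1)
  have l2 := id.le.trans ((add_le_add (le_N _ hx) (le_N _ hx)).trans (m1.trans (l1.trans (add_le_add_left mo ε))))
  rw [add_comm] at l2
  exact (ENNReal.add_le_add_iff_left (ne_top_of_le_ne_top m2 (le_N _ hx))).1 l2

lemma real {φ : ℂ → ℂ} (hd : DifferentiableOn ℂ φ {z : ℂ | 0 < z.re}) (hm : ∀ z : ℂ, 0 < z.re → 0 < (φ z).re)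
    (H : Hyp φ) {w v δ : ℂ} (hw : 0 < w.re) (hv : 0 < v.re) (hn : v.re ≠ w.re) (hδ : φ v - φ w = δ * (v - w)) :
    δ.im = 0 := by
  by_contra hi
  have δ0 : δ ≠ 0 := fun h => hi (by simp [h])
  have cδ : conj δ ≠ 0 := (map_ne_zero _).2 δ0
  have nδ : 0 < ‖δ‖ := norm_pos_iff.2 δ0
  set p : ℂ := ⟨-1, ((φ w - δ * w).re + δ.re) / δ.im⟩ with hp
  have pe : (conj δ * p).re = (φ w - δ * w).re := by
    simp only [mul_re, conj_re, conj_im, hp]; field_simp; ring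
  have l1 : ∀ z : ℂ, 0 < z.re → 1 ≤ ‖φ z - p‖ := fun z hz => by
    refine le_trans ?_ (re_le_norm _)
    have := hm z hz
    simp [hp]; linarith
  have n1 : ∀ z : ℂ, 0 < z.re → φ z - p ≠ 0 := fun z hz h => by
    have := l1 z hz
    rw [h, norm_zero] at this; linarith
  have dF : DifferentiableOn ℂ (fun z => (conj δ * (φ z - p))⁻¹) {z : ℂ | 0 < z.re} :=
    ((hd.sub_const p).const_mul _).inv fun z hz => mul_ne_zero cδ (n1 z hz)
  have bF : ∀ z : ℂ, 0 < z.re → ‖(conj δ * (φ z - p))⁻¹‖ ≤ ‖δ‖⁻¹ := fun z hz => by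
    rw [norm_inv, norm_mul, Complex.norm_conj]
    exact inv_anti₀ nδ (le_mul_of_one_le_right nδ.le (l1 z hz))
  set K : ℝ := (1 + ‖p + conj w‖) * (1 + ‖p + conj v‖) / ‖δ‖ ^ 2 with hK
  have cmp : ∀ z : ℂ, 0 < z.re → ‖(((conj δ * (φ z - p))⁻¹).re : ℂ)‖ ≤ K * ‖1 * (δ * (φ z + conj w)⁻¹ +
      conj δ * conj ((φ z + conj v)⁻¹) - (φ v + conj (φ w)) * (φ z + conj w)⁻¹ * conj ((φ z + conj v)⁻¹))‖ := by
    intro z hz
    have a1 := nz (hm z hz) hw
    have a2 := nz (hm z hz) hv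
    have a3 : conj (φ z + conj v) ≠ 0 := (map_ne_zero _).2 a2
    have hv' : φ v = φ w + δ * (v - w) := by rw [← hδ]; ring
    have e0 : ((2 * (conj δ * (φ z - p)).re : ℝ) : ℂ) = δ * conj (φ z + conj v) + conj δ * (φ z + conj w) -
        (φ v + conj (φ w)) := by
      rw [mul_sub, sub_re, pe, hv']
      apply Complex.ext <;> simp <;> ring
    have e : 1 * (δ * (φ z + conj w)⁻¹ + conj δ * conj ((φ z + conj v)⁻¹) -
        (φ v + conj (φ w)) * (φ z + conj w)⁻¹ * conj ((φ z + conj v)⁻¹)) =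
        (2 * (conj δ * (φ z - p)).re : ℝ) / ((φ z + conj w) * conj (φ z + conj v)) := by
      rw [e0, map_inv₀]; field_simp
    rw [e, inv_re, norm_div, norm_mul, Complex.norm_conj, Complex.norm_real, Complex.norm_real, Real.norm_eq_abs,
      Real.norm_eq_abs, abs_div, abs_mul, abs_two, abs_of_nonneg (normSq_nonneg _), normSq_eq_norm_sq, norm_mul,
      Complex.norm_conj]
    have s1 := l1 z hz
    have b : ∀ u : ℂ, ‖φ z + u‖ ≤ (1 + ‖p + u‖) * ‖φ z - p‖ := fun u => by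
      have := norm_add_le (φ z - p) (p + u)
      rw [show φ z - p + (p + u) = φ z + u by ring] at this
      nlinarith [norm_nonneg (p + u)]
    have b1 := b (conj w)
    have b2 := b (conj v)
    have p1 := norm_pos_iff.2 a1
    have p2 := norm_pos_iff.2 a2
    have b3 := mul_le_mul b1 b2 p2.le (by positivity)
    generalize |(conj δ * (φ z - p)).re| = r, abs_nonneg (conj δ * (φ z - p)).re = r0
    rw [hK, div_mul_div_comm, div_le_div_iff₀ (by positivity) (by positivity)]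
    have b4 : 0 ≤ (1 + ‖p + conj w‖) * ‖φ z - p‖ * ((1 + ‖p + conj v‖) * ‖φ z - p‖) := by positivity
    have b5 : 0 ≤ r * ‖δ‖ ^ 2 := by positivity
    nlinarith [mul_le_mul_of_nonneg_left b3 b5, mul_nonneg b5 b4]
  have z0 : ∀ a : ℂ, 0 < a.re → (conj δ * (φ a - p)).re = 0 := by
    intro a ha
    have : ENNReal.ofReal (((conj δ * (φ a - p))⁻¹).re ^ 2 * (π * a.re / 2)) ≤ 0 := by
      have lim : Tendsto (fun ε : ENNReal => ENNReal.ofReal (K ^ 2) * ε) (𝓝[>] 0) (𝓝 (ENNReal.ofReal (K ^ 2) * 0)) :=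
        ((ENNReal.continuous_const_mul ENNReal.ofReal_ne_top).tendsto 0).mono_left nhdsWithin_le_nhds
      rw [mul_zero] at lim
      refine ge_of_tendsto lim ?_
      filter_upwards [self_mem_nhdsWithin] with ε he
      obtain ⟨x, hx, hx', l⟩ := small hd hm H hw hv (fun h => hn (by rw [h])) hδ (ne_of_gt he) (half_pos ha)
      refine (reb dF bF hx (by linarith)).trans (le_trans ?_ (mul_le_mul_right l _))
      refine le_trans (le_of_eq ?_) (nn_le (F := fun z => (((conj δ * (φ z - p))⁻¹).re : ℂ)) fun y =>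
        cmp _ (by simpa using hx))
      refine lintegral_congr fun y => ?_
      rw [Complex.norm_real, Real.norm_eq_abs, sq_abs]
    rw [nonpos_iff_eq_zero, ENNReal.ofReal_eq_zero] at this
    have p1 : 0 < π * a.re / 2 := by positivity
    have h2 : ((conj δ * (φ a - p))⁻¹).re = 0 := by nlinarith [sq_nonneg ((conj δ * (φ a - p))⁻¹).re, pow_eq_zero_iff (two_ne_zero) |>.1 (le_antisymm (nonpos_of_mul_nonpos_left this p1) (sq_nonneg ((conj δ * (φ a - p))⁻¹).re))]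
    rw [inv_re, div_eq_zero_iff] at h2
    exact h2.resolve_right (normSq_pos.2 (mul_ne_zero cδ (n1 a ha))).ne'
  have h1 := z0 v hv
  have h2 := z0 w hw
  have h3 : (conj δ * (φ v - φ w)).re = 0 := by
    rw [show conj δ * (φ v - φ w) = conj δ * (φ v - p) - conj δ * (φ w - p) by ring, sub_re, h1, h2, sub_zero]
  rw [hδ, ← mul_assoc, Complex.conj_mul', ← ofReal_pow, re_ofReal_mul, sub_re] at h3
  exact mul_ne_zero (pow_ne_zero 2 nδ.ne') (sub_ne_zero.2 hn) h3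

theorem main {φ : ℂ → ℂ} (hd : DifferentiableOn ℂ φ {z : ℂ | 0 < z.re}) (hm : ∀ z : ℂ, 0 < z.re → 0 < (φ z).re)
    (H : Hyp φ) : ∃ a b : ℂ, a ≠ 0 ∧ ∀ z : ℂ, 0 < z.re → φ z = a * z + b := by
  have op : IsOpen {z : ℂ | 0 < z.re} := isOpen_lt continuous_const continuous_re
  have an := hd.analyticOnNhd op
  have r1 : ∀ z ∈ Metric.ball (3 : ℂ) 1, 2 < z.re := fun z hz => by
    have := (abs_re_le_norm (z - 3)).trans_lt (mem_ball_iff_norm.1 hz)
    simp at this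
    linarith [(abs_lt.1 this).1]
  have n1 : ∀ z ∈ Metric.ball (3 : ℂ) 1, z - 1 ≠ 0 := fun z hz h => by
    have := r1 z hz
    rw [sub_eq_zero.1 h] at this; norm_num at this
  have a2 : AnalyticOnNhd ℂ (fun z => (φ z - φ 1) / (z - 1)) (Metric.ball (3 : ℂ) 1) :=
    ((an.mono fun z hz => by have := r1 z hz; simp only [mem_setOf_eq]; linarith).sub analyticOnNhd_const).div
      (analyticOnNhd_id.sub analyticOnNhd_const) n1
  obtain ⟨c, hc⟩ := a2.eq_const_of_im_eq_const (c₀ := 0) (fun z hz => real hd hm H (w := 1) (by simp)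
    (by linarith [r1 z hz]) (by have := r1 z hz; simp; linarith) (div_mul_cancel₀ _ (n1 z hz)).symm)
    Metric.isOpen_ball ((convex_ball _ _).isConnected (Metric.nonempty_ball.2 one_pos))
  have e : EqOn φ (fun z => c * z + (φ 1 - c)) {z : ℂ | 0 < z.re} := by
    refine an.eqOn_of_preconnected_of_eventuallyEq (fun z _ => by fun_prop) (convex_halfSpace_re_gt 0).isPreconnected
      (z₀ := 3) (by simp) ?_
    filter_upwards [Metric.ball_mem_nhds (3 : ℂ) one_pos] with z hz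
    have := hc z hz
    rw [div_eq_iff (n1 z hz)] at this
    linear_combination this
  refine ⟨c, φ 1 - c, fun h => ?_, e⟩
  refine H.fin hm (w := 1) (by simp) one_pos ?_
  have : ∀ y : ℝ, φ ((1 : ℝ) + y * I) = φ 1 := fun y => by rw [e (by simp), h]; simp
  have n := nz (hm 1 (by simp)) (b := 1) (by simp)
  simp only [nn, this, lintegral_const, Real.volume_univ]
  refine ENNReal.mul_top ?_
  simp only [ne_eq, ENNReal.ofReal_eq_zero, not_le]
  exact pow_pos (norm_pos_iff.2 (inv_ne_zero n)) 2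

end Pool.Agent.H.MP_e968d9_an
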